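import Pool.Agent.U780.GY.FEW

/-!
# GZ-FEW: few sets have few large split primes `3` modulo `4` (helper411)

Port of `part1`, `part4` of `Pool/Agent/U998/GD/FEW.lean` (helper998, helper362) to the natural class, for
the configuration `G3 G` whose split primes are the split primes `3` modulo `4` of `G` and whose inert
primes are the other primes of the class of `G`.
-/

set_option autoImplicit false

open scoped Classical

namespace Pool.Agent.U411.GZ

open Finset Filter
open Pool.Agent.Y703.CX (sm la eL zz S_SIE)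
open Pool.Agent.U115.GD (S_MER)
open Pool.Agent.U79.GY (Cfg Ok Hc Sp In Cl SS da db dl)
open Pool.Agent.Y362.CQ (moment)
open Pool.Agent.Y495.CX.Few (PN euler prod_pos' le_of_mem_prod mert eL_tendsto log_small zz_ge
  loglog_zz rpow_eq)
open Pool.Agent.U780.GY.FEW (pr_of in_not SS_mem LL mem_LL LL_sub mem_LL_of LL_sum part2)

/-- sets with many small primes -/
lemma part1 (G : Cfg) {τ r : ℝ} (hτ : 0 < τ) (hr : -1 < r) : ∃ C : ℝ, 0 ≤ C ∧ ∀ᶠ X : ℕ in atTop,
    (((SS G X).filter fun S => τ * eL X < ((sm (zz X) S).card : ℝ)).card : ℝ) ≤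
      C * X * Real.exp (r * eL X) := by
  obtain ⟨C, hC0, hC⟩ := mert
  set κ : ℝ := Real.exp (1 / τ) with hκ
  have κ0 : 0 < κ := Real.exp_pos _
  have hr1 : 0 < r + 1 := by linarith
  refine ⟨Real.exp (κ * C), (Real.exp_pos _).le, ?_⟩
  filter_upwards [eL_tendsto.eventually (log_small (3 * κ) (r + 1) hr1),
    eL_tendsto.eventually (eventually_ge_atTop 2)] with X h1 h2
  have h3 := moment X (zz X) (SS G X)
    (fun S hS => ⟨fun p hp => pr_of ((SS_mem hS).1 p hp), (SS_mem hS).2⟩) κ κ0.le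
  have h4 := hC (zz X) (zz_ge h2)
  have h5 := loglog_zz h2
  have h6 : (((SS G X).filter fun S => τ * eL X < ((sm (zz X) S).card : ℝ)).card : ℝ) *
      Real.exp (eL X) ≤ ∑ S ∈ SS G X, κ ^ (sm (zz X) S).card := by
    rw [← nsmul_eq_mul, ← sum_const]
    refine le_trans ?_ (sum_le_sum_of_subset_of_nonneg
      (filter_subset (fun S => τ * eL X < ((sm (zz X) S).card : ℝ)) (SS G X))
      fun S _ _ => by positivity)
    refine sum_le_sum fun S hS => ?_
    rw [mem_filter] at hS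
    rw [hκ, ← Real.exp_nat_mul]
    apply Real.exp_le_exp.2
    have e1 : eL X = (τ * eL X) * (1 / τ) := by field_simp
    rw [e1]
    exact mul_le_mul_of_nonneg_right hS.2.le (by positivity)
  have h7 := h6.trans h3
  have h8 : κ * ∑ p ∈ PN (zz X), (1 : ℝ) / p ≤ κ * C + (r + 1) * eL X := by
    have : κ * ∑ p ∈ PN (zz X), (1 : ℝ) / p ≤ κ * (3 * Real.log (eL X) + C) :=
      mul_le_mul_of_nonneg_left (by linarith) κ0.le
    nlinarith
  have h9 : (X : ℝ) * Real.exp (κ * ∑ p ∈ PN (zz X), (1 : ℝ) / p) ≤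
      X * (Real.exp (κ * C) * Real.exp ((r + 1) * eL X)) := by
    rw [← Real.exp_add]
    exact mul_le_mul_of_nonneg_left (Real.exp_le_exp.2 h8) (Nat.cast_nonneg _)
  have h10 := h7.trans h9
  have h11 : (Real.exp (κ * C) * X * Real.exp (r * eL X)) * Real.exp (eL X) =
      X * (Real.exp (κ * C) * Real.exp ((r + 1) * eL X)) := by
    have : Real.exp ((r + 1) * eL X) = Real.exp (r * eL X) * Real.exp (eL X) := by
      rw [← Real.exp_add]
      congr 1
      ring
    rw [this]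
    ring
  rw [← h11] at h10
  exact le_of_mul_le_mul_right h10 (Real.exp_pos _)

/-- sets with few large split primes -/
lemma part4 (hs : S_SIE) (hm : S_MER) {G : Cfg} (hG : Ok G) {r ν : ℝ} (hν : 0 ≤ ν)
    (hr : -1 + ν * Real.log 4 + 1 / 4 * da G + db G < r) : ∃ C : ℝ, 0 ≤ C ∧ ∀ᶠ X : ℕ in atTop,
    ((LL G X fun S => ((la (zz X) S).filter fun p => Hc G p).card ≤ ⌊ν * eL X⌋₊).card : ℝ) ≤
      C * X * Real.exp (r * eL X) := by
  refine part2 hs hm hG (1 / 4) 1 (ν * Real.log 4) (by norm_num) zero_le_one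
    (fun X S => ((la (zz X) S).filter fun p => Hc G p).card ≤ ⌊ν * eL X⌋₊) ?_
    (fun X p => if ¬ p ≤ zz X ∧ Hc G p then 1 / 4 else 1) ?_ ?_ ?_ ?_ ?_ ?_
  · intro X S h T hT
    refine (card_le_card (filter_subset_filter _ ?_)).trans h
    unfold la
    exact filter_subset_filter _ hT
  · intro X p
    split_ifs <;> norm_num
  · intro X p _
    split_ifs <;> norm_num
  · intro X p h h'
    rw [if_pos ⟨not_le.2 h', h.2⟩]
  · intro X p _ _
    split_ifs <;> norm_num
  · intro X hX S hS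
    rw [mem_LL] at hS
    rw [← prod_filter, prod_const]
    have h1 : (S.filter fun p => ¬ p ≤ zz X ∧ Hc G p).card ≤ ⌊ν * eL X⌋₊ := by
      refine (card_le_card ?_).trans hS.2.2.2
      intro p hp
      rw [mem_filter] at hp
      unfold la
      rw [mem_filter, mem_filter]
      exact ⟨⟨hp.1, hp.2.1⟩, hp.2.2⟩
    have h2 : (1 / 4 : ℝ) ^ ⌊ν * eL X⌋₊ ≤
        (1 / 4 : ℝ) ^ (S.filter fun p => ¬ p ≤ zz X ∧ Hc G p).card :=
      pow_le_pow_of_le_one (by norm_num) (by norm_num) h1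
    have h3 : Real.exp (-(ν * Real.log 4 * eL X)) ≤ (1 / 4 : ℝ) ^ ⌊ν * eL X⌋₊ := by
      have e1 : (1 / 4 : ℝ) = Real.exp (-Real.log 4) := by
        rw [Real.exp_neg, Real.exp_log (by norm_num)]
        norm_num
      rw [e1, ← Real.exp_nat_mul]
      apply Real.exp_le_exp.2
      have e2 : ((⌊ν * eL X⌋₊ : ℕ) : ℝ) ≤ ν * eL X := Nat.floor_le (by positivity)
      have e4 : 0 ≤ Real.log 4 := Real.log_nonneg (by norm_num)
      have e5 := mul_le_mul_of_nonneg_right e2 e4
      linarith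
    calc (1 : ℝ) = Real.exp (ν * Real.log 4 * eL X) *
          Real.exp (-(ν * Real.log 4 * eL X)) := by
          rw [← Real.exp_add, add_neg_cancel, Real.exp_zero]
      _ ≤ _ := mul_le_mul_of_nonneg_left (h3.trans h2) (Real.exp_pos _).le
  · linarith

/-- few sets have few large split primes -/
lemma few (hs : S_SIE) (hm : S_MER) {G : Cfg} (hG : Ok G) (V : ℕ) :
    ∃ (δ C : ℝ) (X₀ : ℕ), 0 < δ ∧ ∀ X : ℕ, X₀ ≤ X →
    (((SS G X).filter fun S => ((la (zz X) S).filter fun p => Hc G p).card ≤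
      2 * (sm (zz X) S).card + V).card : ℝ) ≤ C * X * (Real.log X) ^ (-1 + dl G - δ : ℝ) := by
  have htot : 0 < Nat.totient G.Q := Nat.totient_pos.2 hG.q0
  have hda : 0 < da G := by
    unfold da
    have h1 : 0 < G.A.card := card_pos.2 hG.hAn
    positivity
  have hdb : 0 < db G := by
    unfold db
    have h1 : 0 < G.B.card := card_pos.2 hG.hBn
    positivity
  set δ : ℝ := da G / 4 with hδ
  have hδ0 : 0 < δ := by positivity
  have hl4 : Real.log 4 < 3 / 2 := by
    have h1 : (4 : ℝ) = 2 ^ 2 := by norm_num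
    rw [h1, Real.log_pow]
    have := Real.log_two_lt_d9
    push_cast
    linarith
  set ν : ℝ := da G / 4 with hν
  have hν0 : 0 < ν := by positivity
  set τ : ℝ := da G / 16 with hτ
  have hτ0 : 0 < τ := by positivity
  set r : ℝ := -1 + dl G - δ with hr
  have hr' : r = -1 + (da G + db G) - δ := by rw [hr, dl]
  obtain ⟨C₁, hC₁, h1⟩ := part1 G (r := r) hτ0 (by rw [hr', hδ]; linarith)
  obtain ⟨C₃, hC₃, h3⟩ := part4 hs hm hG (r := r) hν0.le (by
    have h5 : ν * Real.log 4 < ν * (3 / 2) := mul_lt_mul_of_pos_left hl4 hν0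
    rw [hr', hδ]
    rw [hν] at h5 ⊢
    linarith)
  have h4 := (h1.and h3).and
    (eL_tendsto.eventually (eventually_ge_atTop (max 2 (8 * (V : ℝ) / da G))))
  rw [eventually_atTop] at h4
  obtain ⟨X₀, hX₀⟩ := h4
  refine ⟨δ, C₁ + C₃, X₀, hδ0, fun X hX => ?_⟩
  obtain ⟨⟨h5, h7⟩, h8⟩ := hX₀ X hX
  have h9 : 2 ≤ eL X := (le_max_left _ _).trans h8
  have h10 : 8 * (V : ℝ) ≤ eL X * da G := by
    have := (le_max_right _ _).trans h8
    rwa [div_le_iff₀ hda] at this
  rw [rpow_eq h9]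
  have h11 : ((SS G X).filter fun S => ((la (zz X) S).filter fun p => Hc G p).card ≤
      2 * (sm (zz X) S).card + V) ⊆
      ((SS G X).filter fun S => τ * eL X < ((sm (zz X) S).card : ℝ)) ∪
        LL G X fun S => ((la (zz X) S).filter fun p => Hc G p).card ≤ ⌊ν * eL X⌋₊ := by
    intro S hS
    rw [mem_filter] at hS
    rw [mem_union, mem_filter]
    have h := hS.2
    by_cases hc : τ * eL X < ((sm (zz X) S).card : ℝ)
    · exact Or.inl ⟨hS.1, hc⟩
    · right
      rw [not_lt] at hc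
      refine mem_LL_of hS.1 ?_
      apply Nat.le_floor
      have h12 : ((((la (zz X) S).filter fun p => Hc G p).card : ℕ) : ℝ) ≤
          2 * ((sm (zz X) S).card : ℝ) + V := by exact_mod_cast h
      rw [hτ] at hc
      rw [hν]
      linarith
  have h12 : (((SS G X).filter fun S => ((la (zz X) S).filter fun p => Hc G p).card ≤
      2 * (sm (zz X) S).card + V).card : ℝ) ≤
      (((SS G X).filter fun S => τ * eL X < ((sm (zz X) S).card : ℝ)).card : ℝ) +
      ((LL G X fun S => ((la (zz X) S).filter fun p => Hc G p).card ≤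
        ⌊ν * eL X⌋₊).card : ℝ) := by
    exact_mod_cast (card_le_card h11).trans (card_union_le _ _)
  refine h12.trans ((add_le_add h5 h7).trans (le_of_eq ?_))
  ring

/-- the configuration: the split primes `3` modulo `4` and the other primes of the class -/
def G3 (G : Cfg) : Cfg where
  Q := G.Q
  A := G.A.filter fun r => r % 4 = 3
  B := (G.A.filter fun r => ¬ r % 4 = 3) ∪ G.B

lemma ok3 {G : Cfg} (hG : Ok G) (h3 : ∃ r ∈ G.A, r % 4 = 3) : Ok (G3 G) where
  q0 := hG.q0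
  q8 := hG.q8
  hA := fun r hr => hG.hA r (mem_filter.1 hr).1
  hB := by
    intro r hr
    rcases mem_union.1 hr with h | h
    · rw [mem_filter] at h
      refine ⟨(hG.hA r h.1).1, (hG.hA r h.1).2, fun h' => h.2 (mem_filter.1 h').2⟩
    · exact ⟨(hG.hB r h).1, (hG.hB r h).2.1, fun h' => (hG.hB r h).2.2 (mem_filter.1 h').1⟩
  hAn := by
    obtain ⟨r, hr, hr'⟩ := h3
    exact ⟨r, mem_filter.2 ⟨hr, hr'⟩⟩
  hBn := by
    obtain ⟨r, hr⟩ := hG.hBn
    exact ⟨r, mem_union_right _ hr⟩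

lemma hc3 {G : Cfg} (hG : Ok G) (p : ℕ) : Hc (G3 G) p ↔ Hc G p ∧ p % 4 = 3 := by
  have h4 : 4 ∣ G.Q := dvd_trans (by norm_num) hG.q8
  unfold Hc G3
  simp only [mem_filter]
  rw [Nat.mod_mod_of_dvd p h4]

lemma cl3 {G : Cfg} (hG : Ok G) (p : ℕ) : (Sp (G3 G) p ∨ In (G3 G) p) ↔ (Sp G p ∨ In G p) := by
  have h4 : 4 ∣ G.Q := dvd_trans (by norm_num) hG.q8
  unfold Sp In Hc G3
  simp only [mem_filter, mem_union]
  tauto

lemma SS3 {G : Cfg} (hG : Ok G) (X : ℕ) : SS (G3 G) X = SS G X := by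
  have h : ∀ S : Finset ℕ, Cl (G3 G) S ↔ Cl G S := fun S =>
    forall_congr' fun p => forall_congr' fun _ => cl3 hG p
  ext S
  unfold SS
  rw [mem_filter, mem_filter, h]

lemma dl3 {G : Cfg} (hG : Ok G) : dl (G3 G) = dl G := by
  unfold dl da db G3
  have hdis : Disjoint (G.A.filter fun r => ¬ r % 4 = 3) G.B := by
    rw [disjoint_left]
    intro r hr hr'
    exact (hG.hB r hr').2.2 (mem_filter.1 hr).1
  rw [card_union_of_disjoint hdis]
  have h := card_filter_add_card_filter_not (s := G.A) (fun r => r % 4 = 3)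
  have h' : (G.A.card : ℝ) = ((G.A.filter fun r => r % 4 = 3).card : ℝ) +
      ((G.A.filter fun r => ¬ r % 4 = 3).card : ℝ) := by exact_mod_cast h.symm
  rw [h']
  push_cast
  ring

/-- the statement `Pool.Agent.U79.GZ.S_FEW` -/
theorem few3 : S_SIE → S_MER → ∀ (G : Cfg) (V : ℕ), Ok G → (∃ r ∈ G.A, r % 4 = 3) →
    ∃ (δ C : ℝ) (X₀ : ℕ), 0 < δ ∧ ∀ X : ℕ, X₀ ≤ X →
    (((SS G X).filter fun S => ((la (zz X) S).filter fun p => Hc G p ∧ p % 4 = 3).card ≤
      2 * (sm (zz X) S).card + V).card : ℝ) ≤ C * X * (Real.log X) ^ (-1 + dl G - δ : ℝ) := by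
  intro hs hm G V hG h3
  obtain ⟨δ, C, X₀, hδ, h⟩ := few hs hm (ok3 hG h3) V
  refine ⟨δ, C, X₀, hδ, fun X hX => ?_⟩
  have h' := h X hX
  rw [SS3 hG, dl3 hG] at h'
  simp only [hc3 hG] at h'
  exact h'

end Pool.Agent.U411.GZ
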