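import Pool.Agent.U79.GZ.Stm
import Pool.Agent.U411.GZ.FEWa

/-!
# GZ-FEW: few sets have few large split primes `3` modulo `4` (helper411); the proof is in `FEWa.lean`
-/

set_option autoImplicit false

namespace Pool.Agent.U411.GZ

theorem t_FEW : Pool.Agent.U79.GZ.S_FEW := few3

end Pool.Agent.U411.GZ
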